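import Pool.Agent.H20.AB.Bas
import Pool.Agent.H41.AB.OKB

/-!
Rows WID4 and WID3: the number of sections is bounded by the volume and the width of the valuation
vectors.
-/

set_option linter.unusedSectionVars false

namespace Pool.AB4

open AlgebraicGeometry CategoryTheory Order Filter Topology

variable {Y : Scheme.{0}} [IsIntegral Y] [IsLocallyNoetherian Y] {s : Y ⟶ Spec (.of ℂ)}

/-- Hilbert for `Y`: the number of sections of `k L` over `k ^ 4` has the limit `L ^ 4 / 24`. -/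
theorem h0_limit (hN : Numbers s) {L : Pic Y} (hL : Ample L) :
    Tendsto (fun k : ℕ => (h0 s (k • L) : ℝ) / (k : ℝ) ^ (3 + 1)) atTop
      (𝓝 (dg s (genericPoint Y) L / 24)) := by
  have h1 := hN.limit (genericPoint Y) L hL
  unfold seq at h1
  have h2 : (height (genericPoint Y)).toNat = 4 := by
    rw [height_generic hN]; rfl
  rw [h2] at h1
  have h3 := h1.div_const 24
  refine h3.congr fun k => ?_
  have h4 : ((Nat.factorial 4 : ℕ) : ℝ) = 24 := by
    have : Nat.factorial 4 = 24 := rfl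
    rw [this]; norm_num
  rw [h4]
  show 24 * (h0 s (k • L) : ℝ) / (k : ℝ) ^ 4 / 24 = (h0 s (k • L) : ℝ) / (k : ℝ) ^ (3 + 1)
  have h5 : (3 + 1 : ℕ) = 4 := rfl
  rw [h5]
  ring

/-- ROW WID4: from `valuation4`, `limit` and OKB. -/
theorem width4 (hN : Numbers s) (hP : Positivity s) (x : Pt Y) {L : Pic Y} (hL : Ample L)
    {μ : ℝ} (hμ : 0 ≤ μ)
    (h : ∀ D : Div Y, (∀ p, 0 ≤ D p) → cl D = L → (mul (genericPoint Y) x.1 D : ℝ) ≤ μ) :
    24 * (h0 s L : ℝ) - dg s (genericPoint Y) L ≤ 96 * (μ + 1) ^ 3 := by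
  obtain ⟨S, hcard, hadd, hel, hgen⟩ := hP.valuation4 x
  have key := points_le 3 (fun k => S (k • L)) ?_ ?_ (V := dg s (genericPoint Y) L / 24) ?_
    (fun _ => μ) (fun _ => hμ) ?_
  · have h1 : ∑ i : Fin (3 + 1), ∏ j ∈ Finset.univ.erase i, ((fun _ => μ) j + 1) =
        4 * (μ + 1) ^ 3 := by
      have h2 : ∀ i : Fin (3 + 1), ∏ j ∈ Finset.univ.erase i, ((fun _ => μ) j + 1) =
          (μ + 1) ^ 3 := by
        intro i
        rw [Finset.prod_const, Finset.card_erase_of_mem (Finset.mem_univ i), Finset.card_univ,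
          Fintype.card_fin]
      rw [Finset.sum_congr rfl fun i _ => h2 i, Finset.sum_const, Finset.card_univ,
        Fintype.card_fin, nsmul_eq_mul]
      norm_num
    rw [h1] at key
    have h3 : (S ((1 : ℕ) • L)).card = h0 s L := by rw [one_nsmul, hcard]
    have h4 : ((S ((1 : ℕ) • L)).card : ℝ) ≤ dg s (genericPoint Y) L / 24 + 4 * (μ + 1) ^ 3 := key
    rw [h3] at h4
    linarith
  · intro j k _ _ u hu v hv
    show u + v ∈ S ((j + k) • L)
    rw [add_nsmul]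
    exact hadd _ _ u hu v hv
  · obtain ⟨k, hk, h0, h1, h2, h3, h4⟩ := hgen L hL
    refine ⟨k, hk, fun i => ?_⟩
    fin_cases i
    · refine ⟨_, h1, _, h0, ?_⟩
      funext i; fin_cases i <;> simp
    · refine ⟨_, h2, _, h1, ?_⟩
      funext i; fin_cases i <;> simp
    · refine ⟨_, h3, _, h1, ?_⟩
      funext i; fin_cases i <;> simp
    · refine ⟨_, h4, _, h1, ?_⟩
      funext i; fin_cases i <;> simp
  · refine (h0_limit hN hL).congr fun k => ?_
    show (h0 s (k • L) : ℝ) / (k : ℝ) ^ (3 + 1) = ((S (k • L)).card : ℝ) / (k : ℝ) ^ (3 + 1)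
    rw [hcard]
  · intro u hu i
    have hu' : u ∈ S L := by
      have : u ∈ S ((1 : ℕ) • L) := hu
      rwa [one_nsmul] at this
    obtain ⟨hpos, hle, D, hD, hDL, hmul⟩ := hel L u hu'
    have hb := h D hD hDL
    have hb' : ((u 0 : ℤ) : ℝ) ≤ μ := by
      rw [← hmul]
      exact_mod_cast hb
    have hi : u i ≤ u 0 := by
      have h0 := hpos 0
      have h1 := hpos 1
      have h2 := hpos 2
      have h3 := hpos 3
      fin_cases i
      · exact le_refl _
      · show u 1 ≤ u 0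
        linarith
      · show u 2 ≤ u 0
        linarith
      · show u 3 ≤ u 0
        linarith
    refine ⟨by exact_mod_cast hpos i, ?_⟩
    have hi' : ((u i : ℤ) : ℝ) ≤ ((u 0 : ℤ) : ℝ) := by exact_mod_cast hi
    exact hi'.trans hb'

/-- ROW WID3: from `valuation3`, `limit` and OKB. -/
theorem width3 (hN : Numbers s) (hP : Positivity s) (p : Pr Y) :
    ∃ B : Set Y, IsClosed B ∧ p.1 ∉ B ∧ ∀ x : Pt Y, p.1 ⤳ x.1 → x.1 ∉ B →
      ∀ L : Pic Y, Ample L → ∀ β μ : ℝ, 0 ≤ β → 0 ≤ μ →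
      (∀ (D : Div Y) (b : ℕ), (∀ q, 0 ≤ D q) → D p = 0 → cl D + b • clp p = L →
        (b : ℝ) ≤ β ∧ (mul p.1 x.1 D : ℝ) ≤ μ) →
      24 * (h0 s L : ℝ) - dg s (genericPoint Y) L ≤
        24 * ((μ + 1) ^ 3 + 3 * (β + 1) * (μ + 1) ^ 2) := by
  obtain ⟨B, hB, hpB, hx⟩ := hP.valuation3 p
  refine ⟨B, hB, hpB, fun x hpx hxB L hL β μ hβ hμ h => ?_⟩
  obtain ⟨S, hcard, hadd, hel, hgen⟩ := hx x hpx hxB
  have key := points_le 3 (fun k => S (k • L)) ?_ ?_ (V := dg s (genericPoint Y) L / 24) ?_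
    ![β, μ, μ, μ] ?_ ?_
  · have h1 : ∑ i : Fin (3 + 1), ∏ j ∈ Finset.univ.erase i, (![β, μ, μ, μ] j + 1) =
        (μ + 1) ^ 3 + 3 * (β + 1) * (μ + 1) ^ 2 := by
      have e0 : (Finset.univ.erase (0 : Fin (3 + 1))) = {1, 2, 3} := by decide
      have e1 : (Finset.univ.erase (1 : Fin (3 + 1))) = {0, 2, 3} := by decide
      have e2 : (Finset.univ.erase (2 : Fin (3 + 1))) = {0, 1, 3} := by decide
      have e3 : (Finset.univ.erase (3 : Fin (3 + 1))) = {0, 1, 2} := by decide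
      rw [Fin.sum_univ_four, e0, e1, e2, e3]
      simp
      ring
    rw [h1] at key
    have h3 : (S ((1 : ℕ) • L)).card = h0 s L := by rw [one_nsmul, hcard]
    have h4 : ((S ((1 : ℕ) • L)).card : ℝ) ≤ dg s (genericPoint Y) L / 24 +
      ((μ + 1) ^ 3 + 3 * (β + 1) * (μ + 1) ^ 2) := key
    rw [h3] at h4
    linarith
  · intro j k _ _ u hu v hv
    show u + v ∈ S ((j + k) • L)
    rw [add_nsmul]
    exact hadd _ _ u hu v hv
  · obtain ⟨k, hk, h0, h1, h2, h3, h4⟩ := hgen L hL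
    refine ⟨k, hk, fun i => ?_⟩
    fin_cases i
    · refine ⟨_, h1, _, h0, ?_⟩
      funext i; fin_cases i <;> simp
    · refine ⟨_, h2, _, h0, ?_⟩
      funext i; fin_cases i <;> simp
    · refine ⟨_, h3, _, h2, ?_⟩
      funext i; fin_cases i <;> simp
    · refine ⟨_, h4, _, h2, ?_⟩
      funext i; fin_cases i <;> simp
  · refine (h0_limit hN hL).congr fun k => ?_
    show (h0 s (k • L) : ℝ) / (k : ℝ) ^ (3 + 1) = ((S (k • L)).card : ℝ) / (k : ℝ) ^ (3 + 1)
    rw [hcard]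
  · intro i
    fin_cases i
    · exact hβ
    · exact hμ
    · exact hμ
    · exact hμ
  · intro u hu i
    have hu' : u ∈ S L := by
      have : u ∈ S ((1 : ℕ) • L) := hu
      rwa [one_nsmul] at this
    obtain ⟨hpos, hle, D, hD, hDp, hDL, hmul⟩ := hel L u hu'
    obtain ⟨b, hb⟩ := Int.eq_ofNat_of_zero_le (hpos 0)
    have hDL' : cl D + b • clp p = L := by
      rw [← hDL, hb, natCast_zsmul]
    obtain ⟨hb1, hb2⟩ := h D b hD hDp hDL'
    have hb0 : ((u 0 : ℤ) : ℝ) ≤ β := by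
      rw [hb]
      exact_mod_cast hb1
    have hb' : ((u 1 : ℤ) : ℝ) ≤ μ := by
      rw [← hmul]
      exact_mod_cast hb2
    refine ⟨by exact_mod_cast hpos i, ?_⟩
    have h2 := hpos 2
    have h3 := hpos 3
    fin_cases i
    · exact hb0
    · exact hb'
    · show ((u 2 : ℤ) : ℝ) ≤ μ
      have hi : ((u 2 : ℤ) : ℝ) ≤ ((u 1 : ℤ) : ℝ) := by
        have : u 2 ≤ u 1 := by linarith
        exact_mod_cast this
      exact hi.trans hb'
    · show ((u 3 : ℤ) : ℝ) ≤ μ
      have hi : ((u 3 : ℤ) : ℝ) ≤ ((u 1 : ℤ) : ℝ) := by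
        have : u 3 ≤ u 1 := by linarith
        exact_mod_cast this
      exact hi.trans hb'

end Pool.AB4
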